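import Pool.Agent.helper83.ORE.SpecDE

/-!
# Row EXZ: a totally singular pair
-/

set_option autoImplicit false

namespace Pool.Agent.ORE

open Module Pool.Agent.GS

theorem EXZ (ese : ESE_stmt) (eqt : EQT_stmt) : EXZ_stmt := by
  intro F V _ _ _ _ _ Q h2 y hy τ hτ hfix Z hZy hZn hZ3
  have hZ0 : ∃ z ∈ Z, z ≠ 0 := by
    by_contra hcon
    push Not at hcon
    have : Z = ⊥ := by
      rw [eq_bot_iff]
      intro z hz
      rw [Submodule.mem_bot]
      exact hcon z hz
    rw [this, finrank_bot] at hZ3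
    omega
  -- a singular vector which is not an eigenvector
  have h1 : ∃ b ∈ Z, Q b = 0 ∧ ¬ ∃ c : F, y b = c • b := by
    by_contra hcon
    push Not at hcon
    obtain ⟨c, hc⟩ := ese Q h2 y hy Z hZn hZ3 hcon
    have hns : ∃ z ∈ Z, Q z ≠ 0 := by
      by_contra hall
      push Not at hall
      obtain ⟨z, hz, hz0⟩ := hZ0
      apply hz0
      apply hZn z hz
      intro w hw
      have h3 := Q_add Q z w
      rw [hall z hz, hall w hw, hall (z + w) (Z.add_mem hz hw)] at h3
      linear_combination -h3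
    obtain ⟨z, hz, hz0⟩ := hns
    have h3 := hy.2 z
    rw [hc z hz, Q_smul] at h3
    have h4 : c ^ 2 = 1 := by
      have : (c ^ 2 - 1) * Q z = 0 := by linear_combination h3
      rcases mul_eq_zero.1 this with h | h
      · linear_combination h
      · exact absurd h hz0
    have h5 : c = 1 := by
      have : (c - 1) ^ 2 = 0 := by linear_combination h4 + (1 - c) * h2
      have := pow_eq_zero_iff (two_ne_zero) |>.1 this
      linear_combination this
    apply hz0
    apply hfix z
    rw [hc z hz, h5, one_smul]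
  obtain ⟨b, hb, hQb, hne⟩ := h1
  have hb0 : b ≠ 0 := by
    rintro rfl
    apply hne
    refine ⟨0, ?_⟩
    have := hy.1.2 (0 : F) (0 : V)
    rw [smul_zero, zero_smul] at this
    rw [this, smul_zero]
  have hbyb : pb Q b (y b) = 0 := eqt Q h2 y hy τ hτ hfix b hQb
  have hQyb : Q (y b) = 0 := by rw [hy.2, hQb]
  have h6 : ∃ a ∈ Z, pb Q a b = 0 ∧ pb Q a (y b) ≠ 0 := by
    by_contra hcon
    push Not at hcon
    have h7 : ∃ z ∈ Z, pb Q z b ≠ 0 := by
      by_contra hall
      push Not at hall
      apply hb0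
      apply hZn b hb
      intro z hz
      rw [pb_symm]
      exact hall z hz
    obtain ⟨z1, hz1, hz1b⟩ := h7
    apply hne
    refine ⟨pb Q z1 (y b) / pb Q z1 b, ?_⟩
    have h8 : y b - (pb Q z1 (y b) / pb Q z1 b) • b = 0 := by
      apply hZn
      · exact Z.sub_mem (hZy b hb) (Z.smul_mem _ hb)
      · intro z hz
        rw [pb_symm, map_sub, map_smul, smul_eq_mul]
        have h9 := hcon (z - (pb Q z b / pb Q z1 b) • z1)
          (Z.sub_mem hz (Z.smul_mem _ hz1))
          (by
            rw [map_sub, map_smul, LinearMap.sub_apply, LinearMap.smul_apply, smul_eq_mul]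
            field_simp
            ring)
        rw [map_sub, map_smul, LinearMap.sub_apply, LinearMap.smul_apply, smul_eq_mul] at h9
        have h10 : pb Q z (y b) = pb Q z b / pb Q z1 b * pb Q z1 (y b) := by
          linear_combination h9
        rw [h10]
        field_simp
        ring
    exact sub_eq_zero.1 h8
  obtain ⟨a1, ha1, ha1b, ha1y⟩ := h6
  obtain ⟨a0, ha0, ha0b, ha0y⟩ : ∃ a ∈ Z, pb Q a b = 0 ∧ pb Q a (y b) = 1 := by
    refine ⟨(pb Q a1 (y b))⁻¹ • a1, Z.smul_mem _ ha1, ?_, ?_⟩
    · rw [map_smul, LinearMap.smul_apply, ha1b, smul_zero]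
    · rw [map_smul, LinearMap.smul_apply, smul_eq_mul, inv_mul_cancel₀ ha1y]
  refine ⟨a0 + Q a0 • y b, Z.add_mem ha0 (Z.smul_mem _ (hZy b hb)), b, hb, ?_, hQb, ?_, ?_⟩
  · rw [Q_add, Q_smul, hQyb, map_smul, ha0y, smul_eq_mul, mul_zero, mul_one, add_zero]
    exact add2 h2 _
  · rw [map_add, LinearMap.add_apply, map_smul, LinearMap.smul_apply, ha0b, pb_symm Q (y b) b, hbyb,
      smul_zero, add_zero]
  · rw [map_add, LinearMap.add_apply, map_smul, LinearMap.smul_apply, ha0y, pb_self2 h2,
      smul_zero, add_zero]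

end Pool.Agent.ORE
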